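import Mathlib

/-!
# Representative perfect matchings of vector-labelled complete bipartite graphs

For all `n ≥ 2` and `k ≤ 2n` there is a labelling of `K_{n,n}` by vectors of `ℓ₁`-norm at most `1`
for which every perfect matching has error at least `k / 3`.  So no bound `C √k` holds.
-/

namespace Pool.Agent.Results.MP_26893d_co.LinearError

open Finset

/-- The `i`-th coordinate of `h(S) = ∑_{e ∈ S} h(e)`, for a set `S` of edges. -/
noncomputable def total {V : Type} {k : ℕ} (h : Sym2 V → Fin k → ℝ) (S : Set (Sym2 V))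
    (i : Fin k) : ℝ :=
  ∑ᶠ e ∈ S, h e i

/-- The error `f_h(G') = ‖ h(G') - (e(G') / e(G)) h(G) ‖₁` of a subgraph `G'` of `G`. -/
noncomputable def err {V : Type} {k : ℕ} (G : SimpleGraph V) (h : Sym2 V → Fin k → ℝ)
    (G' : G.Subgraph) : ℝ :=
  ∑ i : Fin k, |total h G'.edgeSet i
    - ((G'.edgeSet.ncard : ℕ) : ℝ) / ((G.edgeSet.ncard : ℕ) : ℝ) * total h G.edgeSet i|

/-- A labelling: every edge of `G` has a label of `ℓ₁`-norm at most `1`. -/
def IsLabelling {V : Type} {k : ℕ} (G : SimpleGraph V) (h : Sym2 V → Fin k → ℝ) : Prop :=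
  ∀ e ∈ G.edgeSet, ∑ i : Fin k, |h e i| ≤ 1

/-- The complete bipartite graph `K_{n,n}`. -/
abbrev K (n : ℕ) : SimpleGraph (Fin n ⊕ Fin n) := completeBipartiteGraph (Fin n) (Fin n)

def E (n : ℕ) (x : Fin n × Fin n) : Sym2 (Fin n ⊕ Fin n) := s(Sum.inl x.1, Sum.inr x.2)

lemma E_inj (n : ℕ) : Function.Injective (E n) := by
  rintro ⟨a, b⟩ ⟨a', b'⟩ h
  simp only [E, Sym2.eq_iff] at h
  rcases h with ⟨h1, h2⟩ | ⟨h1, h2⟩
  · rw [Sum.inl_injective h1, Sum.inr_injective h2]
  · exact absurd h1 (by simp)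

lemma E_mem (n : ℕ) (x : Fin n × Fin n) : E n x ∈ (K n).edgeSet := by
  simp [E]

lemma edgeSet_eq (n : ℕ) : (K n).edgeSet = Set.range (E n) := by
  ext e
  constructor
  · intro he
    induction e with
    | _ x y =>
    rw [SimpleGraph.mem_edgeSet, completeBipartiteGraph_adj] at he
    rcases x with x | x <;> rcases y with y | y
    · simp at he
    · exact ⟨(x, y), rfl⟩
    · exact ⟨(y, x), Sym2.eq_swap⟩
    · simp at he
  · rintro ⟨x, rfl⟩
    exact E_mem n x

lemma edge_card (n : ℕ) : (K n).edgeSet.ncard = n ^ 2 := by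
  rw [edgeSet_eq, ← Set.image_univ, Set.ncard_image_of_injective _ (E_inj n), Set.ncard_univ,
    Nat.card_prod, Nat.card_fin, sq]

lemma matching_card (n : ℕ) (M : (K n).Subgraph) (hM : M.IsPerfectMatching) :
    M.edgeSet.ncard = n := by
  have hM' : ∀ v, ∃! w, M.Adj v w := SimpleGraph.Subgraph.isPerfectMatching_iff.mp hM
  choose m hm hmu using hM'
  have hr : ∀ a : Fin n, ∃ b : Fin n, m (Sum.inl a) = Sum.inr b := by
    intro a
    have h1 : M.Adj (Sum.inl a) (m (Sum.inl a)) := hm (Sum.inl a)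
    have h2 := M.adj_sub h1
    rw [completeBipartiteGraph_adj] at h2
    rcases hma : m (Sum.inl a) with b | b
    · rw [hma] at h2; simp at h2
    · exact ⟨b, rfl⟩
  choose b hb using hr
  have hset : M.edgeSet = Set.range (fun a : Fin n => E n (a, b a)) := by
    ext e
    constructor
    · intro he
      have he' := M.edgeSet_subset he
      rw [edgeSet_eq] at he'
      obtain ⟨⟨x, y⟩, rfl⟩ := he'
      refine ⟨x, ?_⟩
      have h1 : M.Adj (Sum.inl x) (Sum.inr y) := he
      have h2 := hmu _ _ h1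
      rw [hb] at h2
      simp only
      rw [Sum.inr_injective h2]
    · rintro ⟨a, rfl⟩
      have h1 : M.Adj (Sum.inl a) (m (Sum.inl a)) := hm (Sum.inl a)
      rw [hb] at h1
      exact h1
  rw [hset, ← Set.image_univ, Set.ncard_image_of_injective, Set.ncard_univ, Nat.card_fin]
  intro a a' h
  have := E_inj n h
  exact congrArg Prod.fst this

/-- The labelling: `φ` places `m` edges in each of `k` classes. -/
noncomputable def lab {n k m : ℕ} (φ : Fin k × Fin m ↪ Fin n × Fin n) :
    Sym2 (Fin n ⊕ Fin n) → Fin k → ℝ :=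
  fun e i => Set.indicator {e | ∃ j, e = E n (φ (i, j))} 1 e

lemma total_lab {n k m : ℕ} (φ : Fin k × Fin m ↪ Fin n × Fin n) (S : Set (Sym2 (Fin n ⊕ Fin n)))
    (i : Fin k) :
    total (lab φ) S i = ((S ∩ {e | ∃ j, e = E n (φ (i, j))}).ncard : ℕ) := by
  classical
  unfold total lab
  rw [finsum_mem_eq_toFinset_sum]
  have h1 : ∀ e, Set.indicator {e | ∃ j, e = E n (φ (i, j))} (1 : Sym2 (Fin n ⊕ Fin n) → ℝ) e
      = if (∃ j, e = E n (φ (i, j))) then 1 else 0 := by
    intro e
    rw [Set.indicator_apply]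
    rfl
  rw [Finset.sum_congr rfl (fun e _ => h1 e), ← Finset.sum_filter, Finset.sum_const, nsmul_eq_mul,
    mul_one]
  congr 1
  rw [← Set.ncard_coe_finset]
  congr 1
  ext e
  simp

lemma exists_labelling (n k : ℕ) (hn : 2 ≤ n) (hk : k ≤ 2 * n) :
    ∃ h : Sym2 (Fin n ⊕ Fin n) → Fin k → ℝ, IsLabelling (K n) h ∧
      ∀ M : (K n).Subgraph, M.IsPerfectMatching → (k : ℝ) / 3 ≤ err (K n) h M := by
  classical
  have hcard : Fintype.card (Fin k × Fin (n / 2)) ≤ Fintype.card (Fin n × Fin n) := by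
    rw [Fintype.card_prod, Fintype.card_prod, Fintype.card_fin, Fintype.card_fin, Fintype.card_fin]
    calc k * (n / 2) ≤ (2 * n) * (n / 2) := Nat.mul_le_mul_right _ hk
      _ = n * (n / 2 * 2) := by ring
      _ ≤ n * n := Nat.mul_le_mul_left _ (Nat.div_mul_le_self n 2)
  obtain ⟨φ⟩ := Function.Embedding.nonempty_of_card_le hcard
  refine ⟨lab φ, ?_, ?_⟩
  · intro e _
    have h1 : ∀ i, |lab φ e i| = if (∃ j, e = E n (φ (i, j))) then 1 else 0 := by
      intro i
      unfold lab
      rw [Set.indicator_apply]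
      split_ifs with h1 h2 h2
      · simp
      · exact absurd h1 h2
      · exact absurd h2 h1
      · simp
    simp only [h1]
    rw [← Finset.sum_filter, Finset.sum_const, nsmul_eq_mul, mul_one]
    have : (Finset.univ.filter (fun i : Fin k => ∃ j, e = E n (φ (i, j)))).card ≤ 1 := by
      rw [Finset.card_le_one]
      intro a ha b hb
      simp only [Finset.mem_filter, Finset.mem_univ, true_and] at ha hb
      obtain ⟨j, hj⟩ := ha
      obtain ⟨j', hj'⟩ := hb
      have h2 := φ.injective (E_inj n (hj.symm.trans hj'))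
      exact congrArg Prod.fst h2
    exact_mod_cast this
  · intro M hM
    unfold err
    have hterm : ∀ i : Fin k, (1 : ℝ) / 3 ≤ |total (lab φ) M.edgeSet i
        - ((M.edgeSet.ncard : ℕ) : ℝ) / (((K n).edgeSet.ncard : ℕ) : ℝ)
          * total (lab φ) (K n).edgeSet i| := by
      intro i
      have h1 : total (lab φ) (K n).edgeSet i = ((n / 2 : ℕ) : ℝ) := by
        rw [total_lab]
        norm_cast
        have : (K n).edgeSet ∩ {e | ∃ j, e = E n (φ (i, j))}
            = (fun j => E n (φ (i, j))) '' Set.univ := by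
          ext e
          constructor
          · rintro ⟨_, j, hj⟩
            exact ⟨j, trivial, hj.symm⟩
          · rintro ⟨j, _, rfl⟩
            exact ⟨E_mem n _, j, rfl⟩
        rw [this, Set.ncard_image_of_injective, Set.ncard_univ, Nat.card_fin]
        intro j j' h
        have := φ.injective (E_inj n h)
        exact congrArg Prod.snd this
      rw [h1, total_lab, matching_card n M hM, edge_card]
      set m := (M.edgeSet ∩ {e | ∃ j, e = E n (φ (i, j))}).ncard
      have hnpos : (0 : ℝ) < n := by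
        have : 0 < n := by omega
        exact_mod_cast this
      have h2 : (n : ℝ) / ((n ^ 2 : ℕ) : ℝ) * ((n / 2 : ℕ) : ℝ) = ((n / 2 : ℕ) : ℝ) / n := by
        push_cast
        field_simp
      rw [h2]
      have h3 : (1 : ℝ) / 3 ≤ ((n / 2 : ℕ) : ℝ) / n := by
        rw [div_le_div_iff₀ (by norm_num) hnpos]
        have : n ≤ (n / 2) * 3 := by omega
        have h4 : (n : ℝ) ≤ ((n / 2 : ℕ) : ℝ) * 3 := by exact_mod_cast this
        linarith
      have h4 : ((n / 2 : ℕ) : ℝ) / n ≤ 1 / 2 := by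
        rw [div_le_div_iff₀ hnpos (by norm_num)]
        have : (n / 2) * 2 ≤ n := Nat.div_mul_le_self n 2
        have h4 : ((n / 2 : ℕ) : ℝ) * 2 ≤ (n : ℝ) := by exact_mod_cast this
        linarith
      rcases Nat.eq_zero_or_pos m with hm | hm
      · rw [hm, abs_sub_comm]
        refine le_trans ?_ (le_abs_self _)
        push_cast
        linarith
      · have h5 : (1 : ℝ) ≤ (m : ℝ) := by exact_mod_cast hm
        refine le_trans ?_ (le_abs_self _)
        linarith
    calc (k : ℝ) / 3 = ∑ _i : Fin k, (1 : ℝ) / 3 := by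
          rw [Finset.sum_const, Finset.card_univ, Fintype.card_fin, nsmul_eq_mul]; ring
      _ ≤ _ := Finset.sum_le_sum (fun i _ => hterm i)

/-- **Linear lower bound, hence a disproof of `C √k`.**  For all `n ≥ 2` and `k ≤ 2n` some
labelling of `K_{n,n}` has error at least `k / 3` on every perfect matching; in particular, for
every `C` there are `n, k ≥ 1` and a labelling such that every perfect matching has error greater
than `C √k`. -/
theorem result :
    (∀ n k : ℕ, 2 ≤ n → k ≤ 2 * n →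
      ∃ h : Sym2 (Fin n ⊕ Fin n) → Fin k → ℝ, IsLabelling (K n) h ∧
        ∀ M : (K n).Subgraph, M.IsPerfectMatching → (k : ℝ) / 3 ≤ err (K n) h M) ∧
    (∀ C : ℝ, ∃ n k : ℕ, 1 ≤ n ∧ 1 ≤ k ∧
      ∃ h : Sym2 (Fin n ⊕ Fin n) → Fin k → ℝ, IsLabelling (K n) h ∧
        ∀ M : (K n).Subgraph, M.IsPerfectMatching → C * √(k : ℝ) < err (K n) h M) := by
  refine ⟨exists_labelling, ?_⟩
  intro C
  obtain ⟨r, hr⟩ := exists_nat_gt (|C| * 3)
  have hrpos : 0 < r := by
    rcases Nat.eq_zero_or_pos r with h | h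
    · subst h
      have := abs_nonneg C
      push_cast at hr
      linarith
    · exact h
  have hk1 : 1 ≤ r ^ 2 := Nat.one_le_pow _ _ hrpos
  obtain ⟨h, hh, hM⟩ := exists_labelling (r ^ 2 + 1) (r ^ 2) (by omega) (by omega)
  refine ⟨r ^ 2 + 1, r ^ 2, by omega, hk1, h, hh, ?_⟩
  intro M hMp
  refine lt_of_lt_of_le ?_ (hM M hMp)
  have hrr : (0 : ℝ) < r := by exact_mod_cast hrpos
  have hs : √(((r ^ 2 : ℕ) : ℝ)) = r := by
    push_cast
    exact Real.sqrt_sq hrr.le
  rw [hs]
  push_cast
  have h1 : C ≤ |C| := le_abs_self C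
  have h2 : C * 3 < r := by linarith
  nlinarith

end Pool.Agent.Results.MP_26893d_co.LinearError
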